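import Pool.Agent.TH892.CF3

/-!
Conjecture F of Hardy and Littlewood, with the full constant, for almost all triples of height at most `H`.
-/

set_option autoImplicit false

namespace Pool.Agent.U854.CFB

open Finset Filter Topology Polynomial
open Pool.Agent.TH892 Pool.Agent.H300R2.BH Pool.Agent.H300R2.FB Pool.Agent.W468.ConjF
open Pool.Agent.H442R2.EHI (evt_log_pow evt_log_ge)

/-- the coefficient vector of a triple -/
def vec (t : ℤ × ℤ × ℤ) : Fin (2 + 1) → ℤ := ![t.2.2, t.2.1, t.1]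

lemma vec_mem {H : ℕ} {t : ℤ × ℤ × ℤ} (ht : t ∈ Tr H) : vec t ∈ box 2 H := by
  rw [mem_Tr] at ht
  obtain ⟨⟨h1, h2⟩, ⟨h3, h4⟩, h5, h6⟩ := ht
  unfold Pool.Agent.TH892.box
  rw [Fintype.mem_piFinset]
  intro i
  fin_cases i
  · simp only [vec]
    simp
    omega
  · simp only [vec]
    simp
    omega
  · simp only [vec]
    simp
    omega

lemma vec_inj : Function.Injective vec := by
  rintro ⟨a, b, c⟩ ⟨a', b', c'⟩ h
  have h0 := congrFun h 0
  have h1 := congrFun h 1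
  have h2 := congrFun h 2
  simp [vec] at h0 h1 h2
  subst h0 h1 h2
  rfl

lemma eval_vec (t : ℤ × ℤ × ℤ) (n : ℤ) : (pol (vec t)).eval n = t.1 * n ^ 2 + t.2.1 * n + t.2.2 := by
  rw [pol_eval, Fin.sum_univ_three]
  simp [vec]
  ring

lemma card_box_le (H : ℕ) : ((box 2 H).card : ℝ) ≤ (#(Tr H) : ℝ) := by
  have h : (box 2 H).card ≤ #(Tr H) := by
    apply card_le_card_of_injOn (fun c => ((c 2, c 1, c 0) : ℤ × ℤ × ℤ))
    · intro c hc
      have hc' : c ∈ box 2 H := hc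
      unfold Pool.Agent.TH892.box at hc'
      rw [Fintype.mem_piFinset] at hc'
      have e0 := hc' 0
      have e1 := hc' 1
      have e2 := hc' 2
      simp at e0 e1 e2
      show ((c 2, c 1, c 0) : ℤ × ℤ × ℤ) ∈ Tr H
      rw [mem_Tr]
      exact ⟨e2, e1, e0⟩
    · intro c _ d _ h
      simp only [Prod.mk.injEq] at h
      funext i
      fin_cases i
      · exact h.2.2
      · exact h.2.1
      · exact h.1
  exact_mod_cast h

lemma rho_vec (t : ℤ × ℤ × ℤ) (p : ℕ) : rho (pol (vec t)) p = nr t.1 t.2.1 t.2.2 p := by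
  unfold rho nr
  simp only [eval_vec]

lemma hprime {a b c : ℤ} (h : Admissible a b c) (p : ℕ) (hp : p.Prime) (h3 : (p : ℤ) ∣ a) (h4 : (p : ℤ) ∣ b) :
    ¬ (p : ℤ) ∣ c := by
  intro h5
  have := h.2.1 _ h3 h4 h5
  rw [Int.isUnit_iff] at this
  have := hp.two_le
  omega

lemma nr_ne {a b c : ℤ} (h : Admissible a b c) (p : ℕ) (hp : p.Prime) : nr a b c p ≠ p := by
  by_cases hp3 : 3 ≤ p
  · by_cases ha : (p : ℤ) ∣ a
    · by_cases hb : (p : ℤ) ∣ b
      · rw [nr_none a b c p ha hb (hprime h p hp ha hb)]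
        omega
      · rw [nr_lin a b c p hp ha hb]
        omega
    · have h1 := nr_odd a b c p hp hp3 ha
      have h2 : jacobiSym (b ^ 2 - 4 * a * c) p ≤ 1 := by
        rcases jacobiSym.trichotomy (b ^ 2 - 4 * a * c) p with h | h | h <;> omega
      omega
  · have hp2 : p = 2 := by
      have := hp.two_le
      omega
    subst hp2
    rw [nr_two a b c h.2.2.1]
    split_ifs <;> omega

lemma SS_vec {t : ℤ × ℤ × ℤ} (h : Admissible t.1 t.2.1 t.2.2) (z : ℕ) (hz : 2 ≤ z) :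
    SS z (pol (vec t)) = 2 * CF t.1 t.2.1 t.2.2 z := by
  classical
  rw [← euler_eq t.1 t.2.1 t.2.2 h z hz (fun _ => P t.1 t.2.1 t.2.2) (fun _ => rfl)]
  unfold SS Pool.Agent.H373R2.BH.eulerProduct
  have hs : (Icc 1 z).filter Nat.Prime = (range (z + 1)).filter Nat.Prime := by
    ext p
    rw [mem_filter, mem_filter, mem_Icc, mem_range]
    constructor
    · rintro ⟨⟨h1, h2⟩, h3⟩
      exact ⟨by omega, h3⟩
    · rintro ⟨h1, h3⟩
      exact ⟨⟨h3.one_le, by omega⟩, h3⟩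
  rw [hs]
  refine prod_congr rfl fun p _ => ?_
  have hom : Pool.Agent.H373R2.BH.omegaP (fun _ : Fin 1 => P t.1 t.2.1 t.2.2) p = rho (pol (vec t)) p := by
    rw [rho_vec]
    unfold Pool.Agent.H373R2.BH.omegaP nr
    congr 1
    apply filter_congr
    intro r _
    simp only [eval_P, exists_const]
  rw [hom, pow_one, div_eq_mul_inv, mul_comm]

/-- the sum of `1 / log f(n)` over `1 ≤ n ≤ x` with `f(n) ≥ 2`, `f(n) = a n² + b n + c` -/
noncomputable def S (a b c : ℤ) (x : ℕ) : ℝ :=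
  ∑ n ∈ (Icc 1 x).filter (fun n : ℕ => 2 ≤ a * (n : ℤ) ^ 2 + b * n + c),
    1 / Real.log ((a * (n : ℤ) ^ 2 + b * n + c : ℤ) : ℝ)

lemma pv_vec (t : ℤ × ℤ × ℤ) (x : ℕ) : pv (pol (vec t)) x = piF t.1 t.2.1 t.2.2 x := by
  unfold pv piF
  simp only [eval_vec]

lemma lF_vec (t : ℤ × ℤ × ℤ) (x : ℕ) : lF (pol (vec t)) x = S t.1 t.2.1 t.2.2 x := by
  unfold lF S
  simp only [eval_vec]

/-- the triples with a small leading coefficient -/
lemma small_lead (H : ℕ) (Y : ℝ) (hY : 0 < Y) :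
    (#((Tr H).filter (fun t => (t.1 : ℝ) * Y ≤ H)) : ℝ) ≤ (#(Tr H) : ℝ) / Y := by
  classical
  have hsub : (Tr H).filter (fun t => (t.1 : ℝ) * Y ≤ H) ⊆
      Icc (1 : ℤ) ⌊(H : ℝ) / Y⌋₊ ×ˢ Icc (-(H : ℤ)) H ×ˢ Icc (-(H : ℤ)) H := by
    intro t ht
    rw [mem_filter, mem_Tr] at ht
    obtain ⟨⟨⟨h1, h2⟩, h3, h4⟩, h5⟩ := ht
    rw [mem_product, mem_product, mem_Icc, mem_Icc, mem_Icc]
    refine ⟨⟨h1, ?_⟩, h3, h4⟩
    have h6 : (t.1 : ℝ) ≤ H / Y := by rw [le_div_iff₀ hY]; exact h5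
    have h7 : ((t.1.toNat : ℕ) : ℤ) = t.1 := Int.toNat_of_nonneg (by omega)
    have h8 : t.1.toNat ≤ ⌊(H : ℝ) / Y⌋₊ := by
      apply Nat.le_floor
      have : ((t.1.toNat : ℕ) : ℝ) = (t.1 : ℝ) := by exact_mod_cast h7
      rw [this]
      exact h6
    omega
  have h1 : (#((Tr H).filter (fun t => (t.1 : ℝ) * Y ≤ H)) : ℝ) ≤
      (#(Icc (1 : ℤ) ⌊(H : ℝ) / Y⌋₊ ×ˢ Icc (-(H : ℤ)) H ×ˢ Icc (-(H : ℤ)) H) : ℝ) := by
    exact_mod_cast card_le_card hsub
  refine h1.trans ?_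
  rw [card_product, card_product, Int.card_Icc, Int.card_Icc, card_Tr]
  rw [show ((⌊(H : ℝ) / Y⌋₊ : ℤ) + 1 - 1).toNat = ⌊(H : ℝ) / Y⌋₊ by omega,
    show ((H : ℤ) + 1 - -(H : ℤ)).toNat = 2 * H + 1 by omega]
  push_cast
  have h2 : (⌊(H : ℝ) / Y⌋₊ : ℝ) ≤ H / Y := Nat.floor_le (by positivity)
  calc (⌊(H : ℝ) / Y⌋₊ : ℝ) * ((2 * H + 1) * (2 * H + 1)) ≤ H / Y * ((2 * H + 1) * (2 * H + 1)) := by
        apply mul_le_mul_of_nonneg_right h2 (by positivity)
    _ = _ := by ring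

theorem main (ε : ℝ) (hε : 0 < ε) (U : ℕ) : ∃ B H₀ : ℕ, ∀ H : ℕ, H₀ ≤ H →
    ∃ Bad : Finset (ℤ × ℤ × ℤ), Bad ⊆ Tr H ∧ (#Bad : ℝ) ≤ (#(Tr H) : ℝ) / Real.log H ^ U ∧
    ∀ t ∈ Tr H, t ∉ Bad → Admissible t.1 t.2.1 t.2.2 →
      ∃ K : ℝ, 0 < K ∧ Tendsto (fun z => CF t.1 t.2.1 t.2.2 z) atTop (𝓝 K) ∧
      ∀ x : ℕ, (H : ℝ) ^ ε ≤ x → (x : ℝ) * Real.log H ^ B ≤ H →
        0 < S t.1 t.2.1 t.2.2 x ∧
        |(piF t.1 t.2.1 t.2.2 x : ℝ) - 2 * K * S t.1 t.2.1 t.2.2 x| ≤
          2 * K * S t.1 t.2.1 t.2.2 x / Real.log H ^ U := by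
  classical
  obtain ⟨E1, hE1⟩ := exc_box 2 (by norm_num) ε hε (U + 3)
  obtain ⟨E2, hE2⟩ := CF_box (U + 1) (U + 3)
  set E := max E1 E2 + 1 with hE
  obtain ⟨B, x1, hb⟩ := hE1 E (by omega)
  obtain ⟨x2, hX⟩ := hE2 E (by omega)
  obtain ⟨x3, hSS⟩ := SS_small (E - 1)
  rw [show E - 1 + 1 = E by omega] at hSS
  obtain ⟨c, hc, hSSl⟩ := SS_lower 2 (by norm_num)
  have hlogs : ∀ᶠ x : ℕ in atTop, (E * Real.log (Real.log x)) ^ (2 * 2) ≤ c * Real.log x := by
    have h1 : (fun t : ℝ => Real.log t ^ (2 * 2)) =o[atTop] fun t : ℝ => t :=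
      Real.isLittleO_pow_log_id_atTop
    have h2 := h1.bound (show (0:ℝ) < c / ((1 + E) ^ (2 * 2)) by positivity)
    have h3 := (Real.tendsto_log_atTop.comp (tendsto_natCast_atTop_atTop (R := ℝ))).eventually h2
    filter_upwards [h3, evt_log_ge (Real.exp 1)] with x hx hx2
    simp only [Function.comp] at hx
    have ht0 : 0 < Real.log x := lt_of_lt_of_le (Real.exp_pos 1) hx2
    have hl : 1 ≤ Real.log (Real.log x) := by
      rw [Real.le_log_iff_exp_le ht0]; exact hx2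
    rw [Real.norm_of_nonneg (by positivity), Real.norm_of_nonneg ht0.le] at hx
    calc (E * Real.log (Real.log x)) ^ (2 * 2)
        ≤ ((1 + E) * Real.log (Real.log x)) ^ (2 * 2) := by
          gcongr
          linarith
      _ = (1 + E) ^ (2 * 2) * Real.log (Real.log x) ^ (2 * 2) := by
          rw [mul_pow]
      _ ≤ (1 + E) ^ (2 * 2) * (c / ((1 + E) ^ (2 * 2)) * Real.log x) := by gcongr
      _ = c * Real.log x := by field_simp
  have hev : ∀ᶠ H : ℕ in atTop, x1 ≤ H ∧ x2 ≤ H ∧ x3 ≤ H ∧ 32 ≤ Real.log H ∧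
      Real.log H ^ (2 * U + 10) ≤ (H:ℝ) ^ ε ∧ 3 ≤ H ∧
      (E * Real.log (Real.log H)) ^ (2 * 2) ≤ c * Real.log H := by
    filter_upwards [eventually_ge_atTop x1, eventually_ge_atTop x2, eventually_ge_atTop x3,
      evt_log_ge 32, evt_log_pow (2 * U + 10) ε hε, eventually_ge_atTop 3, hlogs]
      with H h1 h2 h3 h4 h5 h6 h7
    exact ⟨h1, h2, h3, h4, h5, h6, h7⟩
  obtain ⟨H0, hH0⟩ := eventually_atTop.mp hev
  refine ⟨B, H0, fun H hH => ?_⟩
  obtain ⟨hx1, hx2, hx3, hL32, hLe, hH3, hll⟩ := hH0 H hH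
  obtain ⟨hz3, hSSz⟩ := hSS H hx3
  obtain ⟨X, hXs, hXc, hXg⟩ := hX H hx2
  set L := Real.log H with hLdef
  set z := ⌊L ^ E⌋₊ with hz
  have hL0 : 0 < L := by linarith
  have hL1 : 1 ≤ L := by linarith
  have hLp0 : ∀ n : ℕ, 0 < L ^ n := fun n => by positivity
  have hLp : ∀ n : ℕ, 1 ≤ L ^ n := fun n => one_le_pow₀ hL1
  set Q : (Fin (2 + 1) → ℤ) → Prop := fun v => (∀ p : ℕ, p.Prime → p ≤ z → rho (pol v) p ≠ p) ∧
      ∃ K : ℕ, (H : ℝ) ^ ε ≤ K ∧ (K : ℝ) * L ^ B ≤ H ∧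
        SS z (pol v) * la (pol v) K / L ^ (U + 3) <
        |pa (pol v) K - SS z (pol v) * la (pol v) K| with hQ
  have hexc := hb H hx1 Q (fun v _ hv => hv)
  set Bad := X ∪ ((Tr H).filter (fun t => (t.1 : ℝ) * L ^ (U + 1) ≤ H) ∪ (Tr H).filter (fun t => Q (vec t))) with hBad
  refine ⟨Bad, ?_, ?_, ?_⟩
  · rw [hBad]
    apply union_subset hXs
    apply union_subset (filter_subset _ _) (filter_subset _ _)
  · have h1 : (#Bad : ℝ) ≤ #X + (#((Tr H).filter (fun t => (t.1 : ℝ) * L ^ (U + 1) ≤ H)) +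
        #((Tr H).filter (fun t => Q (vec t)))) := by
      have h2 := card_union_le X ((Tr H).filter (fun t => (t.1 : ℝ) * L ^ (U + 1) ≤ H) ∪ (Tr H).filter (fun t => Q (vec t)))
      have h3 := card_union_le ((Tr H).filter (fun t => (t.1 : ℝ) * L ^ (U + 1) ≤ H)) ((Tr H).filter (fun t => Q (vec t)))
      have h4 : #Bad ≤ #X + (#((Tr H).filter (fun t => (t.1 : ℝ) * L ^ (U + 1) ≤ H)) +
        #((Tr H).filter (fun t => Q (vec t)))) := by rw [hBad]; omega
      exact_mod_cast h4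
    have h2 := small_lead H (L ^ (U + 1)) (hLp0 _)
    have h3 : (#((Tr H).filter (fun t => Q (vec t))) : ℝ) ≤ (#(Tr H) : ℝ) / L ^ (U + 3) := by
      have h4 : #((Tr H).filter (fun t => Q (vec t))) ≤ #((box 2 H).filter Q) := by
        apply card_le_card_of_injOn vec
        · intro t ht
          have ht' : t ∈ (Tr H).filter (fun t => Q (vec t)) := ht
          rw [mem_filter] at ht'
          show vec t ∈ (box 2 H).filter Q
          rw [mem_filter]
          exact ⟨vec_mem ht'.1, ht'.2⟩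
        · exact vec_inj.injOn
      calc (#((Tr H).filter (fun t => Q (vec t))) : ℝ) ≤ (#((box 2 H).filter Q) : ℝ) := by exact_mod_cast h4
        _ ≤ ((box 2 H).card : ℝ) / L ^ (U + 3) := hexc
        _ ≤ _ := div_le_div_of_nonneg_right (card_box_le H) (hLp0 _).le
    have hN0 : (0 : ℝ) ≤ #(Tr H) := Nat.cast_nonneg _
    have h5 : (#(Tr H) : ℝ) / L ^ (U + 1) = #(Tr H) / L ^ U * (1 / L) := by
      rw [pow_succ]
      field_simp
    have h6 : (#(Tr H) : ℝ) / L ^ (U + 3) ≤ #(Tr H) / L ^ U * (1 / L) := by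
      rw [← h5]
      apply div_le_div_of_nonneg_left hN0 (hLp0 _)
      exact pow_le_pow_right₀ hL1 (by omega)
    have h7 : (1:ℝ) / L ≤ 1 / 3 := by
      apply one_div_le_one_div_of_le (by norm_num) (by linarith)
    have h8 : (0:ℝ) ≤ (#(Tr H) : ℝ) / L ^ U := by positivity
    have h9 : (#(Tr H) : ℝ) / L ^ U * (1 / L) ≤ #(Tr H) / L ^ U * (1 / 3) := by gcongr
    calc (#Bad : ℝ) ≤ #X + (#((Tr H).filter (fun t => (t.1 : ℝ) * L ^ (U + 1) ≤ H)) +
        #((Tr H).filter (fun t => Q (vec t)))) := h1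
      _ ≤ #(Tr H) / L ^ (U + 1) + (#(Tr H) / L ^ (U + 1) + #(Tr H) / L ^ (U + 3)) := by
          gcongr
      _ ≤ #(Tr H) / L ^ U * (1 / 3) + (#(Tr H) / L ^ U * (1 / 3) + #(Tr H) / L ^ U * (1 / 3)) := by
          rw [h5]
          linarith
      _ = _ := by ring
  · intro t ht htB hadm
    rw [hBad, mem_union, mem_union, mem_filter, mem_filter] at htB
    push Not at htB
    obtain ⟨htX, hta, htQ⟩ := htB
    have hta := hta ht
    have htQ := htQ ht
    have hvb := vec_mem ht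
    have hsq : ¬ IsSquare (dsc t) := hadm.2.2.2
    have hc0 : t.2.2 ≠ 0 := by
      intro h0
      apply hsq
      unfold dsc
      rw [h0]
      exact ⟨t.2.1, by ring⟩
    obtain ⟨K, hK0, hK⟩ := CF_tendsto t.1 t.2.1 t.2.2 hadm.1 hadm.2.2.2
    refine ⟨K, hK0, hK, fun x hx hxB => ?_⟩
    -- the constant
    set θ : ℝ := 1 / L ^ (U + 3) with hθ
    have hθ0 : 0 < θ := by positivity
    have hθ1 : θ ≤ 1 / 32 := by
      rw [hθ]
      apply one_div_le_one_div_of_le (by norm_num)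
      calc (32:ℝ) ≤ L := hL32
        _ = L ^ 1 := (pow_one L).symm
        _ ≤ L ^ (U + 3) := pow_le_pow_right₀ hL1 (by omega)
    have hcf := CF_limit t.1 t.2.1 t.2.2 K hK0 hK z θ (by linarith) (hXg t ht htX hc0 hsq)
    set F := pol (vec t) with hF
    have hrho : ∀ p : ℕ, p.Prime → p ≤ z → rho F p ≠ p := by
      intro p hp _
      rw [hF, rho_vec]
      exact nr_ne hadm p hp
    have hSSe : SS z F = 2 * CF t.1 t.2.1 t.2.2 z := SS_vec hadm z (by omega)
    -- the formula with absolute values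
    have hmain : |pa F x - SS z F * la F x| ≤ SS z F * la F x / L ^ (U + 3) := by
      by_contra hcon
      rw [not_le] at hcon
      exact htQ ⟨hrho, x, hx, hxB, hcon⟩
    -- lower bounds
    have hx0 : (0:ℝ) < x := lt_of_lt_of_le (by positivity) hx
    have hxH : x ≤ H := by
      have : (x:ℝ) ≤ H := (le_mul_of_one_le_right hx0.le (hLp B)).trans hxB
      exact_mod_cast this
    have hxL : L ^ (2 * U + 10) ≤ x := hLe.trans hx
    have h12 : 6 * 2 ≤ x := by
      have h1 : (12:ℝ) ≤ x := by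
        calc (12:ℝ) ≤ L := by linarith
          _ = L ^ 1 := (pow_one L).symm
          _ ≤ L ^ (2 * U + 10) := pow_le_pow_right₀ hL1 (by omega)
          _ ≤ x := hxL
      have : 12 ≤ x := by exact_mod_cast h1
      omega
    have hla := la_lower 2 (by norm_num) (by omega : 2 + 1 ≤ H) hxH h12 hvb
    rw [← hF, ← hLdef] at hla
    have hla1 : (x:ℝ) / (8 * L) ≤ la F x := by
      refine le_trans (le_of_eq ?_) hla
      congr 1
      push_cast
      ring
    have hs1 := hSSl z hz3 F (pol_natDegree_le (vec t)) hrho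
    have hzle : (z:ℝ) ≤ L ^ E := Nat.floor_le (by positivity)
    have hzr : (3:ℝ) ≤ z := by exact_mod_cast hz3
    have hlogz : Real.log z ≤ E * Real.log L := by
      rw [← Real.log_pow]
      exact Real.log_le_log (by linarith) hzle
    have hlogz0 : 0 < Real.log z := Real.log_pos (by linarith)
    have hSS1 : 1 / L ≤ SS z F := by
      refine le_trans ?_ hs1
      rw [div_le_div_iff₀ hL0 (by positivity)]
      calc 1 * Real.log z ^ (2 * 2) ≤ (E * Real.log L) ^ (2 * 2) := by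
            rw [one_mul]
            gcongr
        _ ≤ c * L := hll
    have hSS0 : 0 < SS z F := lt_of_lt_of_le (by positivity) hSS1
    have hla0 : 0 < la F x := lt_of_lt_of_le (by positivity) hla1
    -- negative values
    have hap : 1 ≤ t.1 := by
      have := hadm.1
      omega
    have hapr : (0:ℝ) < t.1 := by exact_mod_cast hadm.1
    have hlast : (vec t (Fin.last 2)) = t.1 := rfl
    set K1 := 2 * H / t.1.toNat with hK1
    have habs := abs_conv F x K1 (by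
      intro k hk _
      apply eval_nonneg (by norm_num) hvb
      rw [hlast]
      exact hk)
    obtain ⟨a1, a2, a3⟩ := habs
    have hK1r : (K1 : ℝ) ≤ 2 * L ^ (U + 1) := by
      have h1 : (K1 : ℝ) ≤ ((2 * H : ℕ) : ℝ) / (t.1.toNat : ℝ) := by
        rw [hK1]
        exact Nat.cast_div_le
      have h2 : ((t.1.toNat : ℕ) : ℝ) = (t.1 : ℝ) := by
        have : ((t.1.toNat : ℕ) : ℤ) = t.1 := Int.toNat_of_nonneg (by omega)
        exact_mod_cast this
      rw [h2] at h1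
      refine h1.trans ?_
      rw [div_le_iff₀ hapr]
      push_cast
      nlinarith
    -- `K1` is small
    have hk2 : 2 * (K1:ℝ) ≤ la F x / L ^ (U + 3) := by
      rw [le_div_iff₀ (hLp0 _)]
      refine le_trans ?_ hla1
      rw [le_div_iff₀ (by positivity)]
      calc 2 * (K1:ℝ) * L ^ (U + 3) * (8 * L) ≤ 2 * (2 * L ^ (U + 1)) * L ^ (U + 3) * (8 * L) := by gcongr
        _ = 32 * L ^ (2 * U + 5) := by ring
        _ ≤ L * L ^ (2 * U + 5) := by gcongr
        _ = L ^ (2 * U + 6) := by ring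
        _ ≤ L ^ (2 * U + 10) := pow_le_pow_right₀ hL1 (by omega)
        _ ≤ x := hxL
    have hk1 : (K1:ℝ) ≤ SS z F * la F x / L ^ (U + 3) := by
      rw [le_div_iff₀ (hLp0 _)]
      calc (K1:ℝ) * L ^ (U + 3) ≤ 2 * L ^ (U + 1) * L ^ (U + 3) := by gcongr
        _ = (1 / L) * ((2 * L ^ (2 * U + 5))) := by
            field_simp
            ring
        _ ≤ (1 / L) * (x / (8 * L)) := by
            apply mul_le_mul_of_nonneg_left _ (by positivity)
            rw [le_div_iff₀ (by positivity)]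
            calc 2 * L ^ (2 * U + 5) * (8 * L) = 16 * L ^ (2 * U + 6) := by ring
              _ ≤ L * L ^ (2 * U + 6) := by
                  apply mul_le_mul_of_nonneg_right _ (by positivity)
                  linarith
              _ = L ^ (2 * U + 7) := by ring
              _ ≤ L ^ (2 * U + 10) := pow_le_pow_right₀ hL1 (by omega)
              _ ≤ x := hxL
        _ ≤ SS z F * la F x := by gcongr
    rw [pv_vec] at a1
    rw [lF_vec] at a2 a3
    set s := S t.1 t.2.1 t.2.2 x with hs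
    set M := SS z F * la F x with hM
    have hM0 : 0 < M := mul_pos hSS0 hla0
    have hsla : la F x ≤ 2 * s := by
      have h1 : la F x / L ^ (U + 3) ≤ la F x / 32 := by
        apply div_le_div_of_nonneg_left hla0.le (by norm_num)
        calc (32:ℝ) ≤ L := hL32
          _ = L ^ 1 := (pow_one L).symm
          _ ≤ L ^ (U + 3) := pow_le_pow_right₀ hL1 (by omega)
      linarith
    have hs0 : 0 < s := by linarith
    refine ⟨hs0, ?_⟩
    have hSSK : SS z F ≤ 4 * K := by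
      rw [hSSe]
      have h1 := (abs_le.mp hcf).2
      have h2 : 2 * θ * K ≤ K := by
        have : 2 * θ ≤ 1 := by linarith
        nlinarith
      linarith
    have hMs : M ≤ 8 * (K * s) := by
      rw [hM]
      calc SS z F * la F x ≤ (4 * K) * (2 * s) := by
            apply mul_le_mul hSSK hsla hla0.le (by positivity)
        _ = _ := by ring
    have b1 : |(piF t.1 t.2.1 t.2.2 x : ℝ) - SS z F * s| ≤ 3 * (M / L ^ (U + 3)) := by
      have h1 : (piF t.1 t.2.1 t.2.2 x : ℝ) - SS z F * s =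
          -(pa F x - (piF t.1 t.2.1 t.2.2 x : ℝ)) + (pa F x - M) + SS z F * (la F x - s) := by
        rw [hM]; ring
      rw [h1]
      refine (abs_add_le _ _).trans ?_
      have h2 := abs_add_le (-(pa F x - (piF t.1 t.2.1 t.2.2 x : ℝ))) (pa F x - M)
      rw [abs_neg] at h2
      have h3 : |SS z F * (la F x - s)| ≤ M / L ^ (U + 3) := by
        rw [abs_of_nonneg (mul_nonneg hSS0.le a2), hM, mul_div_assoc]
        apply mul_le_mul_of_nonneg_left _ hSS0.le
        linarith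
      linarith
    have b2 : |SS z F * s - 2 * K * s| ≤ 4 * θ * (K * s) := by
      have h1 : SS z F * s - 2 * K * s = 2 * s * (CF t.1 t.2.1 t.2.2 z - K) := by rw [hSSe]; ring
      rw [h1, abs_mul, abs_of_pos (by positivity)]
      calc 2 * s * |CF t.1 t.2.1 t.2.2 z - K| ≤ 2 * s * (2 * θ * K) := by gcongr
        _ = _ := by ring
    have b3 : |(piF t.1 t.2.1 t.2.2 x : ℝ) - 2 * K * s| ≤ 28 * θ * (K * s) := by
      have h1 : (piF t.1 t.2.1 t.2.2 x : ℝ) - 2 * K * s =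
          ((piF t.1 t.2.1 t.2.2 x : ℝ) - SS z F * s) + (SS z F * s - 2 * K * s) := by ring
      rw [h1]
      refine (abs_add_le _ _).trans ?_
      have h2 : 3 * (M / L ^ (U + 3)) ≤ 24 * θ * (K * s) := by
        rw [hθ]
        calc 3 * (M / L ^ (U + 3)) ≤ 3 * (8 * (K * s) / L ^ (U + 3)) := by gcongr
          _ = _ := by ring
      linarith
    refine b3.trans ?_
    have h1 : 28 * θ ≤ 2 / L ^ U := by
      rw [hθ, mul_one_div, div_le_div_iff₀ (hLp0 _) (hLp0 _), pow_add]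
      have h2 : (28:ℝ) ≤ 2 * L ^ 3 := by
        have : L ^ 1 ≤ L ^ 3 := pow_le_pow_right₀ hL1 (by norm_num)
        rw [pow_one] at this
        linarith
      calc 28 * L ^ U ≤ (2 * L ^ 3) * L ^ U := by gcongr
        _ = _ := by ring
    calc 28 * θ * (K * s) ≤ 2 / L ^ U * (K * s) := by gcongr
      _ = _ := by ring

end Pool.Agent.U854.CFB
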